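import Pool.Agent.Q322.RD.Stmts
import Pool.Agent.Q322.CC.PolyC
import Pool.Agent.H671R2.PolyAuto

/-!
# MP_918064_lc: the algorithm runs in polynomial time in the padded input
-/

namespace Pool.Agent.Q322.RD

open Pool.Agent.NPC Pool.Agent.H633R2 Pool.Agent.Q322 Pool.Agent.NPC.H633

section

variable {α : Type} [TEnc α] {M : α → List (List Bool)} {B w : α → List ℕ} {u v : α → ℕ}

theorem poly_adjB (hM : Poly M) (hu : Poly u) (hv : Poly v) :
    Poly (fun a => adjB (M a) (u a) (v a)) := by
  have h1 : Poly (fun a => entry (M a) (u a) (v a)) := by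
    unfold entry
    exact Poly.getD (Poly.getD hM hu (NPC.Poly.const [])) hv (NPC.Poly.const false)
  have h2 : Poly (fun a => entry (M a) (v a) (u a)) := by
    unfold entry
    exact Poly.getD (Poly.getD hM hv (NPC.Poly.const [])) hu (NPC.Poly.const false)
  unfold adjB
  exact Poly.and (Poly.not (Poly.decide_eq hu hv)) (Poly.or h1 h2)

theorem poly_nb (hM : Poly M) (hB : Poly B) : Poly (fun a => nb (M a) (B a)) := by
  unfold nb
  refine Poly.filter (p := fun a w => decide (w ∈ B a) || (B a).any (fun u => adjB (M a) u w))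
    (Poly.range_length hM) ?_
  refine Poly.or (Poly.decide_mem (Poly.snd Poly.id) (hB.comp (Poly.fst Poly.id))) ?_
  refine Poly.any (α := α × ℕ) (p := fun q u => adjB (M q.1) u q.2)
    (hB.comp (Poly.fst Poly.id)) ?_
  exact poly_adjB (hM.comp (Poly.fst (Poly.fst Poly.id))) (Poly.snd Poly.id)
    (Poly.snd (Poly.fst Poly.id))

theorem poly_ball (r : ℕ) (hM : Poly M) (hv : Poly v) : Poly (fun a => ball (M a) r (v a)) := by
  induction r with
  | zero =>
    unfold ball
    refine Poly.filter (p := fun a w => decide (w = v a)) (Poly.range_length hM) ?_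
    exact Poly.decide_eq (Poly.snd Poly.id) (hv.comp (Poly.fst Poly.id))
  | succ r ih =>
    unfold ball
    exact poly_nb hM ih

theorem poly_hasN (hM : Poly M) (hv : Poly v) : Poly (fun a => hasN (M a) (v a)) := by
  unfold hasN
  refine Poly.any (p := fun a w => adjB (M a) (v a) w) (Poly.range_length hM) ?_
  exact poly_adjB (hM.comp (Poly.fst Poly.id)) (hv.comp (Poly.fst Poly.id)) (Poly.snd Poly.id)

theorem poly_niso (hM : Poly M) : Poly (fun a => niso (M a)) := by
  unfold niso
  refine Poly.filter (p := fun a w => hasN (M a) w) (Poly.range_length hM) ?_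
  exact poly_hasN (hM.comp (Poly.fst Poly.id)) (Poly.snd Poly.id)

theorem poly_isol (hM : Poly M) : Poly (fun a => isol (M a)) := by
  unfold isol
  refine Poly.filter (p := fun a w => !hasN (M a) w) (Poly.range_length hM) ?_
  exact Poly.not (poly_hasN (hM.comp (Poly.fst Poly.id)) (Poly.snd Poly.id))

theorem reps_eq (M : List (List Bool)) (r : ℕ) :
    reps M r = (niso M).filter fun v => (List.range M.length).all fun v' =>
      !(decide (v' < v)) || !(hasN M v' && decide (ball M r v' = ball M r v)) := by
  unfold reps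
  refine List.filter_congr fun v hv => ?_
  have hv' : v < M.length := by
    unfold niso at hv
    exact List.mem_range.1 (List.mem_filter.1 hv).1
  rw [Bool.eq_iff_iff, List.all_eq_true, List.all_eq_true]
  constructor
  · intro h v' _
    by_cases h2 : v' < v
    · rw [h v' (List.mem_range.2 h2), Bool.or_true]
    · simp [h2]
  · intro h v' h2
    have h3 := List.mem_range.1 h2
    have h4 := h v' (List.mem_range.2 (by omega))
    simpa [h3] using h4

theorem poly_reps (r : ℕ) (hM : Poly M) : Poly (fun a => reps (M a) r) := by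
  simp only [reps_eq]
  refine Poly.filter (p := fun a v => (List.range (M a).length).all fun v' =>
      !(decide (v' < v)) || !(hasN (M a) v' && decide (ball (M a) r v' = ball (M a) r v)))
    (poly_niso hM) ?_
  refine Poly.all (α := α × ℕ) (p := fun q v' =>
      !(decide (v' < q.2)) || !(hasN (M q.1) v' && decide (ball (M q.1) r v' = ball (M q.1) r q.2)))
    (Poly.range_length (hM.comp (Poly.fst Poly.id))) ?_
  have hM' : Poly (fun p : (α × ℕ) × ℕ => M p.1.1) := hM.comp (Poly.fst (Poly.fst Poly.id))
  have h2 : Poly (fun p : (α × ℕ) × ℕ => p.2) := Poly.snd Poly.id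
  have h12 : Poly (fun p : (α × ℕ) × ℕ => p.1.2) := Poly.snd (Poly.fst Poly.id)
  exact Poly.or (Poly.not (Poly.decide_lt h2 h12)) (Poly.not (Poly.and (poly_hasN hM' h2)
    (Poly.decide_eq (poly_ball r hM' h2) (poly_ball r hM' h12))))

theorem poly_chk (r : ℕ) (hM : Poly M) (hl : Poly v) (hw : Poly w) :
    Poly (fun a => chk (M a) r (v a) (w a)) := by
  unfold chk
  have hR := poly_reps r hM
  have hg : ∀ {β : Type} [TEnc β] {W : β → List ℕ} {i : β → ℕ}, Poly W → Poly i →
      Poly (fun b => !decide ((W b).getD (i b) 0 = 0)) := fun hW hi =>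
    Poly.not (Poly.decide_eq (Poly.getD hW hi (NPC.Poly.const 0)) (NPC.Poly.const 0))
  refine Poly.and (Poly.decide_le (Poly.add (Poly.length ?_) (Poly.length (poly_isol hM))) hl) ?_
  · refine Poly.filter (p := fun a i => !decide ((w a).getD i 0 = 0)) (Poly.range_length hR) ?_
    exact hg (hw.comp (Poly.fst Poly.id)) (Poly.snd Poly.id)
  · refine Poly.all (p := fun a x => (List.range (reps (M a) r).length).any fun i =>
      !decide ((w a).getD i 0 = 0) && decide (x ∈ ball (M a) r ((reps (M a) r).getD i 0)))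
      (poly_niso hM) ?_
    refine Poly.any (α := α × ℕ) (p := fun q i => !decide ((w q.1).getD i 0 = 0) &&
      decide (q.2 ∈ ball (M q.1) r ((reps (M q.1) r).getD i 0)))
      (Poly.range_length (hR.comp (Poly.fst Poly.id))) ?_
    have h2 : Poly (fun p : (α × ℕ) × ℕ => p.2) := Poly.snd Poly.id
    have h12 : Poly (fun p : (α × ℕ) × ℕ => p.1.2) := Poly.snd (Poly.fst Poly.id)
    have h11 : Poly (fun p : (α × ℕ) × ℕ => p.1.1) := Poly.fst (Poly.fst Poly.id)
    exact Poly.and (hg (hw.comp h11) h2) (Poly.decide_mem h12 (poly_ball r (hM.comp h11)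
      (Poly.getD (hR.comp h11) h2 (NPC.Poly.const 0))))

theorem poly_alg' (r : ℕ) {s cap : α → ℕ} (hM : Poly M) (hl : Poly v) (hs : UPoly s)
    (hcap : UPoly cap) : Poly (fun a => alg (M a) r (v a) (s a) (cap a)) := by
  unfold alg
  have h1 : Poly (fun a => words (cap a) (s a)) := poly_cube (v := fun _ => 0) (NPC.Poly.const 0) hcap hs
  refine Poly.any (p := fun a w => chk (M a) r (v a) w) h1 ?_
  exact poly_chk r (hM.comp (Poly.fst Poly.id)) (hl.comp (Poly.fst Poly.id)) (Poly.snd Poly.id)

end

/-- The algorithm runs in polynomial time in the size of the padded input. -/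
theorem taskAlgPoly : TaskAlgPoly := fun r =>
  poly_alg' r (Poly.fst (Poly.fst Poly.id)) (Poly.snd (Poly.snd (Poly.fst Poly.id)))
    (UPoly.length (Poly.fst (Poly.snd Poly.id))) (UPoly.length (Poly.snd (Poly.snd Poly.id)))

end Pool.Agent.Q322.RD
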