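import Pool.Agent.H633R2.CtrDefs

/-!
# r-dominating sets and split modulators: definitions
-/

namespace Pool.Agent.Q322.RD

open Pool.Agent.NPC Pool.Agent.H633R2

/-- `X` is a split modulator of `G`: the vertices outside `X` are partitioned into a clique `K` and an
independent set `I`. -/
def SplitMod {V : Type} (G : SimpleGraph V) (X : Set V) : Prop :=
  ∃ K I : Set V, K ∪ I = Xᶜ ∧ K ∩ I = ∅ ∧ G.IsClique K ∧ G.IsIndepSet I

/-- `S` is an `r`-dominating set of `G`: from every vertex there is a walk of length at most `r` to a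
vertex of `S`. -/
def RDom {V : Type} (G : SimpleGraph V) (r : ℕ) (S : Finset V) : Prop :=
  ∀ v, ∃ s ∈ S, ∃ p : G.Walk v s, p.length ≤ r

/-- Instances `(M, X, l)`: the 0/1 matrix of a graph on `Fin M.length`, a list of vertices, a number. -/
abbrev Inst := List (List Bool) × List ℕ × ℕ

/-- The parameter is the number of elements of the list `X`. -/
def par (x : Inst) : ℕ := x.2.1.length

/-- The valid instances: `X` is a list without repetitions of vertices of the graph, and it is a split
modulator. -/
def Valid (x : Inst) : Prop :=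
  x.2.1.Nodup ∧ (∀ v ∈ x.2.1, v < x.1.length) ∧
    SplitMod (graphOf x.1) {v : Fin x.1.length | v.1 ∈ x.2.1}

/-- Does the graph have an `r`-dominating set of size at most `l`? -/
def RDS (r : ℕ) (x : Inst) : Prop :=
  ∃ S : Finset (Fin x.1.length), S.card ≤ x.2.2 ∧ RDom (graphOf x.1) r S

/-- A promise problem (instances `α`, promise `Pr`, parameter `κ`, question `P`) is fixed-parameter
tractable. -/
def PromiseFpt {α : Type} [TEnc α] (κ : α → ℕ) (Pr P : α → Prop) : Prop :=
  ∃ d : α → Bool, FptTime κ d ∧ ∀ a, Pr a → (d a = true ↔ P a)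

/-- W[2]-hardness of a promise problem under fpt-reductions whose values satisfy the promise. -/
def PromiseW2Hard {β : Type} [TEnc β] (κ' : β → ℕ) (Pr Q : β → Prop) : Prop :=
  ∀ (α : Type) [TEnc α] (κ : α → ℕ) (P : α → Prop), InW2 κ P →
    ∃ (f : α → β) (g : ℕ → ℕ), FptTime κ f ∧ Computable g ∧
      ∀ a, Pr (f a) ∧ (P a ↔ Q (f a)) ∧ κ' (f a) ≤ g (κ a)

end Pool.Agent.Q322.RD
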