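import Pool.Agent.Q322.RD.Stmts
import Pool.Agent.Q322.CC.PolyC

/-!
# Assembly
-/

namespace Pool.Agent.Q322.RD

open Pool.Agent.NPC Pool.Agent.H633R2 Pool.Agent.Q322

theorem hard_of (h1 : TaskFwd) (h2 : TaskBwd) (h3 : TaskValid) (h4 : TaskInstPoly) :
    PromiseW2Hard par Valid (RDS 2) := by
  intro α _ κ P hP
  obtain ⟨f, g, hf, hg, h⟩ := hP
  refine ⟨fun a => inst (f a), g, FptTime.poly_comp h4 hf, hg, fun a => ⟨h3 _, ?_, ?_⟩⟩
  · rw [(h a).1]
    exact ⟨h1 _, h2 _⟩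
  · refine le_trans ?_ (h a).2
    change (List.range (min (f a).2 (f a).1.length)).length ≤ _
    rw [List.length_range]
    exact min_le_left _ _

/-- If the promise problem is fixed-parameter tractable, then so are all problems in W[2]. -/
theorem PromiseW2Hard.collapse {β : Type} [TEnc β] {κ' : β → ℕ} {Pr Q : β → Prop}
    (h : PromiseW2Hard κ' Pr Q) (hQ : PromiseFpt κ' Pr Q) (α : Type) [TEnc α] (κ : α → ℕ)
    (P : α → Prop) (hP : InW2 κ P) : IsFpt κ P := by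
  obtain ⟨d, hd, hd'⟩ := hQ
  obtain ⟨f, g, hf, hg, h⟩ := h α κ P hP
  refine IsFpt.of_reduces (κ' := κ') (Q := fun b => d b = true) ⟨f, g, hf, hg, fun a => ⟨?_, (h a).2.2⟩⟩
    ⟨d, hd, fun _ => Iff.rfl⟩
  exact (h a).2.1.trans (hd' _ (h a).1).symm

open Pool.Agent.NPC.H633 in
theorem UF_F : UF F := by
  unfold F
  exact UF.add (UF.add UF.id (UF.two_pow UF.id)) (UF.two_pow (UF.mul (UF.const 2) UF.id))

open Pool.Agent.NPC.H633 in
theorem fpt_of (h1 : TaskBall) (h2 : TaskCube) (h3 : TaskCount) (h4 : TaskAlg) (h5 : TaskAlgPoly)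
    (r : ℕ) (hr : 3 ≤ r) : PromiseFpt par Valid (RDS r) := by
  refine ⟨fun x => alg x.1 r x.2.2 (F (par x)) (2 ^ F (par x)), ?_, fun x hx => ?_⟩
  · have hk : Poly par := by unfold par; fun_prop
    have h3 := FptTime.poly_comp (h5 r) ((FptTime.of_poly (κ := par) Poly.id).pair
      ((UF.pad UF_F hk).pair (UF.pad (UF.two_pow UF_F) hk)))
    simpa only [List.length_replicate] using h3
  · exact h4 h1 h2 x.1 x.2.1 r x.2.2 _ _ (h3 x r hr hx) le_rfl

end Pool.Agent.Q322.RD
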