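import Pool.Agent.Q322.RD.Defs
import Pool.Agent.Q322.Mat

/-!
# Blueprint: r-Dominating Set parameterized by a split modulator (MP_918064_lc)

r = 2: W[2]-hard; r ≥ 3: fixed-parameter tractable.
-/

namespace Pool.Agent.Q322.RD

open Pool.Agent.NPC Pool.Agent.H633R2 Pool.Agent.Q322

/-! ## The reduction for `r = 2` (from Dominating Set) -/

/-- labels: kind 0 = `x_i` (the modulator), kind 1 = `p_i` (pendant at `x_i`), kind 2 = copy `i` of the vertex
`v` (adjacent to `x_i` and to the clique vertices which `v` dominates), kind 3 = clique vertices,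
kind 4 = pendants of the clique vertices -/
abbrev Lb := ℕ × ℕ × ℕ

def vsl (n q : ℕ) : List Lb :=
  (List.range q).map (fun i => (0, i, 0)) ++ ((List.range q).map (fun i => (1, i, 0)) ++
    ((List.range q).flatMap (fun i => (List.range n).map (fun v => (2, i, v))) ++
      ((List.range n).map (fun u => (3, 0, u)) ++ (List.range n).map (fun u => (4, 0, u)))))

def dmB (M : List (List Bool)) (v u : ℕ) : Bool := decide (v = u) || (entry M v u || entry M u v)

def ad (M : List (List Bool)) (a b : Lb) : Bool :=
  decide (a.1 = 0 ∧ b.1 = 1 ∧ a.2.1 = b.2.1) || (decide (a.1 = 0 ∧ b.1 = 2 ∧ a.2.1 = b.2.1) ||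
    ((decide (a.1 = 2 ∧ b.1 = 3) && dmB M a.2.2 b.2.2) || (decide (a.1 = 3 ∧ b.1 = 3) ||
      decide (a.1 = 3 ∧ b.1 = 4 ∧ a.2.2 = b.2.2))))

/-- the reduction -/
def inst (x : List (List Bool) × ℕ) : Inst :=
  (mat (vsl x.1.length (min x.2 x.1.length)) (ad x.1), List.range (min x.2 x.1.length),
    min x.2 x.1.length)

/-- If `M` has a dominating set `D` of size `≤ k` then it has one of size `≤ q = min k n`; enumerate it
(with repetitions) as `f 0, …, f (q-1)`; the vertices with labels `(2, i, f i)` 2-dominate. -/
def TaskFwd : Prop := ∀ x, HasDomSet x → RDS 2 (inst x)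

/-- Every 2-dominating set has, for each `i < q`, an element with kind `≤ 2` and second coordinate `i` (look
at `p_i`); as its size is `≤ q` it has no others; the vertex `(4, 0, u)` is dominated by some
`(2, i, v)` with `dmB M v u`. -/
def TaskBwd : Prop := ∀ x, RDS 2 (inst x) → HasDomSet x

/-- `X` = the labels of kind 0, `K` = kind 3, `I` = kinds 1, 2, 4. -/
def TaskValid : Prop := ∀ x, Valid (inst x)

/-- polynomial time: `mat_poly`, `fun_prop`, as in Pool.Agent.Q322.DS.Red (vs_poly, kk_u, inst_poly). -/
def TaskInstPoly : Prop := Poly inst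

/-! ## The algorithm for `r ≥ 3` -/

/-- one more step of a ball -/
def nb (M : List (List Bool)) (B : List ℕ) : List ℕ :=
  (List.range M.length).filter fun w => decide (w ∈ B) || B.any (fun u => adjB M u w)

/-- the ball of radius `r` around `v`, as an increasing list -/
def ball (M : List (List Bool)) : ℕ → ℕ → List ℕ
  | 0, v => (List.range M.length).filter (fun w => decide (w = v))
  | r + 1, v => nb M (ball M r v)

/-- vertices with a neighbour -/
def hasN (M : List (List Bool)) (v : ℕ) : Bool := (List.range M.length).any (fun w => adjB M v w)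

def niso (M : List (List Bool)) : List ℕ := (List.range M.length).filter (hasN M)

def isol (M : List (List Bool)) : List ℕ := (List.range M.length).filter (fun v => !hasN M v)

/-- representatives of the different balls of the vertices which are not isolated -/
def reps (M : List (List Bool)) (r : ℕ) : List ℕ :=
  (niso M).filter fun v => (List.range v).all fun v' => !(hasN M v' && decide (ball M r v' = ball M r v))

/-- the word `w` describes a set of representatives; test it -/
def chk (M : List (List Bool)) (r l : ℕ) (w : List ℕ) : Bool :=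
  decide (((List.range (reps M r).length).filter (fun i => !decide (w.getD i 0 = 0))).length +
    (isol M).length ≤ l) &&
  (niso M).all fun v => (List.range (reps M r).length).any fun i =>
    !decide (w.getD i 0 = 0) && decide (v ∈ ball M r ((reps M r).getD i 0))

/-- all 0/1 words of length `s` if `cap` is large (this is `CC.cube 0 cap s`, see CC/PolyC for `poly_cube`) -/
def words (cap s : ℕ) : List (List ℕ) :=
  (fun E => (E.flatMap (fun l => [0 :: l, (0 + 1) :: l])).take cap)^[s] [[]]

def alg (M : List (List Bool)) (r l s cap : ℕ) : Bool :=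
  (words cap s).any (chk M r l)

/-- the bound for the number of different balls -/
def F (k : ℕ) : ℕ := k + 2 ^ k + 2 ^ (2 * k)

/-- `w ∈ ball M r v` iff there is a walk of length at most `r` -/
def TaskBall : Prop := ∀ (M : List (List Bool)) (r : ℕ) (v w : Fin M.length),
  (w.1 ∈ ball M r v.1 ↔ ∃ p : (graphOf M).Walk v w, p.length ≤ r)

/-- all subsets: `words cap s` has all 0/1 words of length `s` (induction on `s`; the length is `≤ 2 ^ s`) -/
def TaskCube : Prop := ∀ (cap s : ℕ), 2 ^ s ≤ cap → ∀ f : ℕ → Bool,
  ∃ w ∈ words cap s, ∀ i < s, (w.getD i 0 = 0 ↔ f i = false)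

/-- The number of different balls of vertices with a neighbour is at most `F k`, by an injection into a set
with `F k` elements: (a) the vertices of `X`; (b) vertices `v ∉ X` all of whose neighbours are in `X`: the
ball is determined by `N(v) ⊆ X` (twins with a common neighbour, `r ≥ 2`); (c) the other vertices outside
`X`: the ball contains all of (c) (`r ≥ 3`), and is determined by `B_r(v) ∩ X` and `B_{r-1}(v) ∩ X`. -/
def TaskCount : Prop := ∀ (x : Inst) (r : ℕ), 3 ≤ r → Valid x → (reps x.1 r).length ≤ F (par x)

/-- correctness of the algorithm; isolated vertices lie in every `r`-dominating set; the other vertices of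
the set may be replaced by the representatives with the same balls -/
def TaskAlg : Prop := TaskBall → TaskCube → ∀ (M : List (List Bool)) (X : List ℕ) (r l s cap : ℕ),
  (reps M r).length ≤ s → 2 ^ s ≤ cap → (alg M r l s cap = true ↔ RDS r (M, X, l))

/-- polynomial time in the padded input (see Pool.Agent.Q322.CC.PolyC: poly_cube); induction on `r` for
`ball` -/
def TaskAlgPoly : Prop := ∀ r : ℕ, Poly (fun y : Inst × List Unit × List Unit =>
  alg y.1.1 r y.1.2.2 y.2.1.length y.2.2.length)

end Pool.Agent.Q322.RD
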