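import Pool.Agent.Q322.RD.Stmts

set_option autoImplicit false

namespace Pool.Agent.Q322.RD.TaskAlg

open Pool.Agent.NPC Pool.Agent.H633R2 Pool.Agent.Q322 Pool.Agent.Q322.RD

variable (M : List (List Bool)) (r : ℕ)

theorem adj_iff (v w : Fin M.length) : (graphOf M).Adj v w ↔ adjB M v.1 w.1 = true := by
  unfold graphOf adjB
  simp only [Bool.and_eq_true, Bool.not_eq_true', decide_eq_false_iff_not, Bool.or_eq_true, ne_eq,
    Fin.ext_iff]

theorem hasN_of_adj {v w : Fin M.length} (h : (graphOf M).Adj v w) : hasN M v.1 = true := by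
  unfold hasN
  rw [List.any_eq_true]
  exact ⟨w.1, List.mem_range.2 w.2, (adj_iff M v w).1 h⟩

theorem walk_isol {v w : Fin M.length} (p : (graphOf M).Walk v w) (h : hasN M v.1 = false) :
    v = w := by
  cases p with
  | nil => rfl
  | cons hadj q =>
    have := hasN_of_adj M hadj
    rw [h] at this
    exact absurd this (by decide)

theorem mem_niso (v : ℕ) : v ∈ niso M ↔ v < M.length ∧ hasN M v = true := by
  unfold niso
  rw [List.mem_filter, List.mem_range]

theorem mem_isol (v : ℕ) : v ∈ isol M ↔ v < M.length ∧ hasN M v = false := by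
  unfold isol
  rw [List.mem_filter, List.mem_range]
  simp

theorem mem_reps (v : ℕ) : v ∈ reps M r ↔ (v < M.length ∧ hasN M v = true) ∧
    ∀ v' < v, hasN M v' = true → ball M r v' ≠ ball M r v := by
  unfold reps
  rw [List.mem_filter, mem_niso, List.all_eq_true]
  refine and_congr_right fun _ => ?_
  constructor
  · intro h v' hv' hN hb
    have := h v' (List.mem_range.2 hv')
    simp [hN, hb] at this
  · intro h v' hv'
    have := h v' (List.mem_range.1 hv')
    by_cases hN : hasN M v' = true
    · simp [hN, this hN]
    · simp [hN]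

theorem reps_nodup : (reps M r).Nodup := by
  unfold reps niso
  exact ((List.nodup_range).filter _).filter _

theorem exists_rep {v : ℕ} (hv : v < M.length) (hN : hasN M v = true) :
    ∃ i < (reps M r).length, ball M r ((reps M r).getD i 0) = ball M r v := by
  classical
  have hex : ∃ u, hasN M u = true ∧ ball M r u = ball M r v := ⟨v, hN, rfl⟩
  have h1 := Nat.find_spec hex
  have h2 : Nat.find hex ≤ v := Nat.find_min' hex ⟨hN, rfl⟩
  have hmem : Nat.find hex ∈ reps M r := by
    rw [mem_reps]
    refine ⟨⟨lt_of_le_of_lt h2 hv, h1.1⟩, ?_⟩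
    intro v' hv' hN' hb
    exact Nat.find_min hex hv' ⟨hN', hb.trans h1.2⟩
  obtain ⟨i, hi, hi2⟩ := List.getElem_of_mem hmem
  refine ⟨i, hi, ?_⟩
  rw [List.getD_eq_getElem _ _ hi, hi2, h1.2]

theorem main : TaskAlg := by
  classical
  intro hBall hCube M X r l s cap hs hcap
  have hsym : ∀ v w : Fin M.length, w.1 ∈ ball M r v.1 → v.1 ∈ ball M r w.1 := by
    intro v w h
    obtain ⟨p, hp⟩ := (hBall M r v w).1 h
    exact (hBall M r w v).2 ⟨p.reverse, by rw [SimpleGraph.Walk.length_reverse]; exact hp⟩
  constructor
  · intro h
    unfold alg at h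
    rw [List.any_eq_true] at h
    obtain ⟨w, -, hw⟩ := h
    unfold chk at hw
    rw [Bool.and_eq_true, decide_eq_true_eq, List.all_eq_true] at hw
    obtain ⟨hw1, hw2⟩ := hw
    set L := (List.range (reps M r).length).filter (fun i => !decide (w.getD i 0 = 0)) with hL
    refine ⟨Finset.univ.filter (fun v : Fin M.length => v.1 ∈ isol M ∨
      ∃ i ∈ L, v.1 = (reps M r).getD i 0), ?_, ?_⟩
    · refine le_trans ?_ hw1
      rw [← Finset.card_image_of_injective _ (Fin.val_injective (n := M.length))]
      refine le_trans (Finset.card_le_card (t := (L.map (fun i => (reps M r).getD i 0)).toFinset ∪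
        (isol M).toFinset) ?_) ?_
      · intro x hx
        rw [Finset.mem_image] at hx
        obtain ⟨v, hv, rfl⟩ := hx
        rw [Finset.mem_filter] at hv
        rw [Finset.mem_union, List.mem_toFinset, List.mem_toFinset]
        rcases hv.2 with h | ⟨i, hi, h⟩
        · exact Or.inr h
        · exact Or.inl (List.mem_map.2 ⟨i, hi, h.symm⟩)
      · refine le_trans (Finset.card_union_le _ _) ?_
        refine Nat.add_le_add ?_ (List.toFinset_card_le _)
        refine le_trans (List.toFinset_card_le _) ?_
        rw [List.length_map]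
    · intro v
      by_cases hN : hasN M v.1 = true
      · have := hw2 v.1 ((mem_niso M v.1).2 ⟨v.2, hN⟩)
        rw [List.any_eq_true] at this
        obtain ⟨i, hi, hi2⟩ := this
        rw [Bool.and_eq_true, decide_eq_true_eq] at hi2
        have hi3 : i < (reps M r).length := List.mem_range.1 hi
        have hmem : (reps M r).getD i 0 ∈ reps M r := by
          rw [List.getD_eq_getElem _ _ hi3]
          exact List.getElem_mem hi3
        have hlt := ((mem_reps M r _).1 hmem).1.1
        refine ⟨⟨(reps M r).getD i 0, hlt⟩, ?_, ?_⟩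
        · rw [Finset.mem_filter]
          exact ⟨Finset.mem_univ _, Or.inr ⟨i, List.mem_filter.2 ⟨hi, hi2.1⟩, rfl⟩⟩
        · exact (hBall M r v ⟨_, hlt⟩).1 (hsym ⟨_, hlt⟩ v hi2.2)
      · refine ⟨v, ?_, SimpleGraph.Walk.nil, by simp⟩
        rw [Finset.mem_filter]
        exact ⟨Finset.mem_univ _, Or.inl ((mem_isol M v.1).2 ⟨v.2, by simpa using hN⟩)⟩
  · rintro ⟨S, hS, hdom⟩
    have hdom' : ∀ v : Fin M.length, ∃ s ∈ S, ∃ p : (graphOf M).Walk v s, p.length ≤ r := hdom
    have hS' : S.card ≤ l := hS
    obtain ⟨w, hw, hwf⟩ := hCube cap s hcap (fun i => decide (∃ u ∈ S, hasN M u.1 = true ∧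
      ball M r u.1 = ball M r ((reps M r).getD i 0)))
    have hw0 : ∀ i < (reps M r).length, (w.getD i 0 ≠ 0 ↔ ∃ u ∈ S, hasN M u.1 = true ∧
        ball M r u.1 = ball M r ((reps M r).getD i 0)) := by
      intro i hi
      have := hwf i (lt_of_lt_of_le hi hs)
      rw [decide_eq_false_iff_not] at this
      rw [ne_eq, this, not_not]
    unfold alg
    rw [List.any_eq_true]
    refine ⟨w, hw, ?_⟩
    unfold chk
    rw [Bool.and_eq_true, decide_eq_true_eq, List.all_eq_true]
    constructor
    · set L := (List.range (reps M r).length).filter (fun i => !decide (w.getD i 0 = 0)) with hL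
      refine le_trans ?_ hS'
      rw [← Finset.card_filter_add_card_filter_not (s := S) (fun v => hasN M v.1 = true)]
      have hLn : L.Nodup := (List.nodup_range).filter _
      have hIn : (isol M).Nodup := by
        unfold isol
        exact (List.nodup_range).filter _
      have hLm : ∀ i ∈ L, i < (reps M r).length ∧ ∃ u ∈ S, hasN M u.1 = true ∧
          ball M r u.1 = ball M r ((reps M r).getD i 0) := by
        intro i hi
        rw [hL, List.mem_filter, List.mem_range] at hi
        refine ⟨hi.1, (hw0 i hi.1).1 ?_⟩
        simpa using hi.2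
      refine Nat.add_le_add ?_ ?_
      · rw [← List.toFinset_card_of_nodup hLn]
        rcases Finset.eq_empty_or_nonempty L.toFinset with h0 | ⟨i0, hi0⟩
        · rw [h0]; simp
        have hnon : Nonempty (Fin (M, X, l).1.length) := by
          obtain ⟨u, -⟩ := (hLm i0 (by simpa using hi0)).2
          exact ⟨u⟩
        choose! u hu using fun i (hi : i ∈ L) => (hLm i hi).2
        refine Finset.card_le_card_of_injOn u ?_ ?_
        · intro i hi
          have hi' : i ∈ L := by simpa using hi
          have := hu i hi'
          simp only [Finset.coe_filter, Set.mem_setOf_eq]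
          exact ⟨this.1, this.2.1⟩
        · intro i hi j hj hij
          have hi' : i ∈ L := by simpa using hi
          have hj' : j ∈ L := by simpa using hj
          have h1 := (hu i hi').2.2
          have h2 := (hu j hj').2.2
          have hil := (hLm i hi').1
          have hjl := (hLm j hj').1
          rw [hij] at h1
          have hb : ball M r ((reps M r).getD i 0) = ball M r ((reps M r).getD j 0) :=
            h1.symm.trans h2
          rw [List.getD_eq_getElem _ _ hil, List.getD_eq_getElem _ _ hjl] at hb
          have m1 := (mem_reps M r _).1 (List.getElem_mem hil)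
          have m2 := (mem_reps M r _).1 (List.getElem_mem hjl)
          rcases lt_trichotomy ((reps M r)[i]) ((reps M r)[j]) with h | h | h
          · exact absurd hb (m2.2 _ h m1.1.2)
          · exact (reps_nodup M r).getElem_inj_iff.1 h
          · exact absurd hb.symm (m1.2 _ h m2.1.2)
      · rw [← List.toFinset_card_of_nodup hIn]
        rw [← Finset.card_image_of_injective (S.filter fun v => ¬ hasN M v.1 = true)
          (Fin.val_injective (n := M.length))]
        refine Finset.card_le_card ?_
        intro x hx
        rw [List.mem_toFinset, mem_isol] at hx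
        obtain ⟨t, ht, p, -⟩ := hdom' ⟨x, hx.1⟩
        have := walk_isol M p hx.2
        rw [Finset.mem_image]
        refine ⟨⟨x, hx.1⟩, ?_, rfl⟩
        rw [Finset.mem_filter]
        refine ⟨by rw [this]; exact ht, ?_⟩
        rw [hx.2]
        decide
    · intro v hv
      rw [mem_niso] at hv
      obtain ⟨t, ht, p, hp⟩ := hdom' ⟨v, hv.1⟩
      have htN : hasN M t.1 = true := by
        by_contra h
        have h' : hasN M t.1 = false := by simpa using h
        have := walk_isol M p.reverse h'
        rw [this] at h'
        rw [hv.2] at h'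
        exact absurd h' (by decide)
      obtain ⟨i, hi, hb⟩ := exists_rep M r t.2 htN
      rw [List.any_eq_true]
      refine ⟨i, List.mem_range.2 hi, ?_⟩
      rw [Bool.and_eq_true, decide_eq_true_eq]
      constructor
      · have := (hw0 i hi).2 ⟨t, ht, htN, hb.symm⟩
        simpa using this
      · rw [hb]
        exact hsym ⟨v, hv.1⟩ t ((hBall M r ⟨v, hv.1⟩ t).2 ⟨p, hp⟩)

end Pool.Agent.Q322.RD.TaskAlg
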