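import Pool.Agent.Q322.RD.Stmts

set_option autoImplicit false

namespace Pool.Agent.Q322.RD

open Pool.Agent.NPC Pool.Agent.H633R2 Pool.Agent.Q322

private theorem adjB_iff_tb (M : List (List Bool)) (u v : Fin M.length) :
    adjB M u.1 v.1 = true ↔ (graphOf M).Adj u v := by
  unfold adjB graphOf
  simp only [Bool.and_eq_true, Bool.not_eq_true', decide_eq_false_iff_not, Bool.or_eq_true, ne_eq,
    Fin.ext_iff]

private theorem ball_lt_tb (M : List (List Bool)) (r v x : ℕ) (h : x ∈ ball M r v) : x < M.length := by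
  cases r with
  | zero =>
    simp only [ball, List.mem_filter, List.mem_range] at h
    exact h.1
  | succ r =>
    simp only [ball, nb, List.mem_filter, List.mem_range] at h
    exact h.1

theorem taskBall : TaskBall := by
  intro M r
  induction r with
  | zero =>
    intro v w
    simp only [ball, List.mem_filter, List.mem_range, decide_eq_true_eq]
    constructor
    · rintro ⟨-, h⟩
      have h1 : w = v := Fin.ext h
      subst h1
      exact ⟨SimpleGraph.Walk.nil, le_rfl⟩
    · rintro ⟨p, hp⟩
      have h1 := SimpleGraph.Walk.eq_of_length_eq_zero (Nat.le_zero.1 hp)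
      exact ⟨w.2, by rw [h1]⟩
  | succ r ih =>
    intro v w
    simp only [ball, nb, List.mem_filter, List.mem_range, Bool.or_eq_true, decide_eq_true_eq,
      List.any_eq_true]
    constructor
    · rintro ⟨-, h | ⟨u, hu, hadj⟩⟩
      · obtain ⟨p, hp⟩ := (ih v w).1 h
        exact ⟨p, hp.trans (Nat.le_succ r)⟩
      · have hul := ball_lt_tb M r v.1 u hu
        obtain ⟨p, hp⟩ := (ih v ⟨u, hul⟩).1 hu
        have h1 : (graphOf M).Adj ⟨u, hul⟩ w := (adjB_iff_tb M ⟨u, hul⟩ w).1 hadj
        refine ⟨p.concat h1, ?_⟩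
        rw [SimpleGraph.Walk.length_concat]
        omega
    · rintro ⟨p, hp⟩
      refine ⟨w.2, ?_⟩
      obtain ⟨q, hq⟩ : ∃ q : (graphOf M).Walk w v, q.length ≤ r + 1 :=
        ⟨p.reverse, by rw [SimpleGraph.Walk.length_reverse]; exact hp⟩
      clear hp p
      cases q with
      | nil => exact Or.inl ((ih _ _).2 ⟨SimpleGraph.Walk.nil, Nat.zero_le _⟩)
      | @cons _ u _ h q' =>
        right
        rw [SimpleGraph.Walk.length_cons] at hq
        refine ⟨u.1, (ih v u).2 ⟨q'.reverse, ?_⟩, (adjB_iff_tb M u w).2 h.symm⟩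
        rw [SimpleGraph.Walk.length_reverse]
        omega

end Pool.Agent.Q322.RD
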