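import Pool.Agent.Q322.RD.Stmts

set_option autoImplicit false

namespace Pool.Agent.Q322.RD.TBwd

open Pool.Agent.NPC Pool.Agent.H633R2 Pool.Agent.Q322 Pool.Agent.Q322.RD

theorem ad_iff (M : List (List Bool)) (a b : Lb) : ad M a b = true ↔
    (a.1 = 0 ∧ b.1 = 1 ∧ a.2.1 = b.2.1) ∨ (a.1 = 0 ∧ b.1 = 2 ∧ a.2.1 = b.2.1) ∨
    (a.1 = 2 ∧ b.1 = 3 ∧ dmB M a.2.2 b.2.2 = true) ∨ (a.1 = 3 ∧ b.1 = 3) ∨
    (a.1 = 3 ∧ b.1 = 4 ∧ a.2.2 = b.2.2) := by
  simp only [ad, Bool.or_eq_true, Bool.and_eq_true, decide_eq_true_eq, and_assoc]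

theorem walk_two {V : Type} {G : SimpleGraph V} {v s : V} (p : G.Walk v s) (hp : p.length ≤ 2) :
    v = s ∨ G.Adj v s ∨ ∃ t, G.Adj v t ∧ G.Adj t s := by
  cases p with
  | nil => exact Or.inl rfl
  | cons h p' =>
    cases p' with
    | nil => exact Or.inr (Or.inl h)
    | cons h' p'' =>
      cases p'' with
      | nil => exact Or.inr (Or.inr ⟨_, h, h'⟩)
      | cons h'' p3 =>
        simp only [SimpleGraph.Walk.length_cons] at hp
        omega

theorem mem_p {n q i : ℕ} (hi : i < q) : ((1, i, 0) : Lb) ∈ vsl n q := by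
  simp [vsl, hi]

theorem mem_w {n q u : ℕ} (hu : u < n) : ((4, 0, u) : Lb) ∈ vsl n q := by
  simp [vsl, hu]

theorem lt_of_mem {n q : ℕ} {a : Lb} (h : a ∈ vsl n q) (h2 : a.1 = 2) : a.2.2 < n := by
  obtain ⟨x, y, z⟩ := a
  simp only at h2
  subst h2
  simp [vsl] at h
  exact h.2

theorem key (M : List (List Bool)) (k q : ℕ) (hqk : q ≤ k)
    (hx : ∃ S : Finset (Fin (mat (vsl M.length q) (ad M)).length), S.card ≤ q ∧
      RDom (graphOf (mat (vsl M.length q) (ad M))) 2 S) : HasDomSet (M, k) := by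
  obtain ⟨S, hS', hdom⟩ := hx
  let vs := vsl M.length q
  let L : Fin (mat vs (ad M)).length → Lb := lab vs (ad M)
  have hmem : ∀ i, L i ∈ vs := lab_mem vs (ad M)
  have hadj : ∀ i j : Fin (mat vs (ad M)).length, (graphOf (mat vs (ad M))).Adj i j →
      (ad M (L i) (L j) = true ∨ ad M (L j) (L i) = true) := fun i j h =>
    ((adj_mat i j).1 h).2
  -- the pendants `p_i`
  have hA : ∀ i : Fin q, ∃ s ∈ S, (L s).1 ≤ 2 ∧ (L s).2.1 = i := by
    intro i
    obtain ⟨v, hv⟩ := exists_lab (ad M) (mem_p (n := M.length) i.2)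
    change L v = (1, i.1, 0) at hv
    obtain ⟨s, hs, p, hp⟩ := hdom v
    refine ⟨s, hs, ?_⟩
    -- neighbours of `p_i`
    have hnb : ∀ t, (graphOf (mat vs (ad M))).Adj v t → (L t).1 = 0 ∧ (L t).2.1 = i := by
      intro t ht
      have h := hadj v t ht
      rw [hv, ad_iff, ad_iff] at h
      simp only at h
      omega
    rcases walk_two p hp with h | h | ⟨t, h1, h2⟩
    · rw [← h, hv]
      simp
    · have := hnb s h
      omega
    · have h3 := hnb t h1
      have h := hadj t s h2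
      rw [ad_iff, ad_iff] at h
      omega
  choose f hfS hf using hA
  have hinj : Function.Injective f := by
    intro i j hij
    have h1 := (hf i).2
    have h2 := (hf j).2
    rw [hij] at h1
    exact Fin.ext (h1.symm.trans h2)
  have hall : ∀ s ∈ S, ∃ i, f i = s := by
    intro s hs
    have hcard : (Finset.univ.map ⟨f, hinj⟩).card = q := by simp
    have hsub : Finset.univ.map ⟨f, hinj⟩ ⊆ S := by
      intro y hy
      rw [Finset.mem_map] at hy
      obtain ⟨i, -, rfl⟩ := hy
      exact hfS i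
    have heq := Finset.eq_of_subset_of_card_le hsub (by rw [hcard]; exact hS')
    rw [← heq, Finset.mem_map] at hs
    obtain ⟨i, -, hi⟩ := hs
    exact ⟨i, hi⟩
  have hkind : ∀ s ∈ S, (L s).1 ≤ 2 := by
    intro s hs
    obtain ⟨i, rfl⟩ := hall s hs
    exact (hf i).1
  -- the pendants of the clique
  have hC : ∀ u < M.length, ∃ s ∈ S, (L s).1 = 2 ∧ dmB M (L s).2.2 u = true := by
    intro u hu
    obtain ⟨v, hv⟩ := exists_lab (ad M) (mem_w (q := q) hu)
    change L v = (4, 0, u) at hv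
    obtain ⟨s, hs, p, hp⟩ := hdom v
    have hk := hkind s hs
    refine ⟨s, hs, ?_⟩
    have hnb : ∀ t, (graphOf (mat vs (ad M))).Adj v t → (L t).1 = 3 ∧ (L t).2.2 = u := by
      intro t ht
      have h := hadj v t ht
      rw [hv, ad_iff, ad_iff] at h
      simp only at h
      omega
    rcases walk_two p hp with h | h | ⟨t, h1, h2⟩
    · rw [← h, hv] at hk
      simp at hk
    · have := hnb s h
      omega
    · obtain ⟨h3, h4⟩ := hnb t h1
      have h := hadj t s h2
      rw [ad_iff, ad_iff] at h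
      rcases h with h | h
      · omega
      · rcases h with h | h | h | h | h
        · omega
        · omega
        · exact ⟨h.1, h4 ▸ h.2.2⟩
        · omega
        · omega
  classical
  refine ⟨Finset.univ.filter (fun v : Fin M.length => ∃ s ∈ S, (L s).1 = 2 ∧ (L s).2.2 = v), ?_,
    ?_⟩
  · have h1 : (Finset.univ.filter (fun v : Fin M.length => ∃ s ∈ S, (L s).1 = 2 ∧
        (L s).2.2 = v)).card = ((Finset.univ.filter (fun v : Fin M.length =>
          ∃ s ∈ S, (L s).1 = 2 ∧ (L s).2.2 = v)).image Fin.val).card :=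
      (Finset.card_image_of_injective _ Fin.val_injective).symm
    have h2 : (Finset.univ.filter (fun v : Fin M.length => ∃ s ∈ S, (L s).1 = 2 ∧
        (L s).2.2 = v)).image Fin.val ⊆ S.image (fun s => (L s).2.2) := by
      intro y hy
      rw [Finset.mem_image] at hy ⊢
      obtain ⟨v, hv, rfl⟩ := hy
      obtain ⟨s, hs, -, h⟩ := (Finset.mem_filter.1 hv).2
      exact ⟨s, hs, h⟩
    calc _ = _ := h1
      _ ≤ (S.image (fun s => (L s).2.2)).card := Finset.card_le_card h2
      _ ≤ S.card := Finset.card_image_le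
      _ ≤ k := hS'.trans hqk
  · intro w
    obtain ⟨s, hs, h2, hd⟩ := hC w.1 w.2
    have hlt : (L s).2.2 < M.length := lt_of_mem (hmem s) h2
    refine ⟨⟨(L s).2.2, hlt⟩, Finset.mem_filter.2 ⟨Finset.mem_univ _, s, hs, h2, rfl⟩, ?_⟩
    simp only [dmB, Bool.or_eq_true, decide_eq_true_eq] at hd
    by_cases h : (L s).2.2 = w.1
    · exact Or.inl (Fin.ext h)
    · refine Or.inr ⟨fun h' => h (congrArg Fin.val h'), ?_⟩
      rcases hd with hd | hd
      · exact absurd hd h
      · exact hd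

theorem main : Pool.Agent.Q322.RD.TaskBwd := by
  intro x hx
  obtain ⟨M, k⟩ := x
  exact key M k _ (min_le_left k M.length) hx

end Pool.Agent.Q322.RD.TBwd
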