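import Pool.Agent.Q322.RD.Stmts

/-!
# The number of different balls of vertices with a neighbour is at most `F k`
-/

namespace Pool.Agent.Q322.RD

open Pool.Agent.NPC Pool.Agent.H633R2 Pool.Agent.Q322

private theorem cmem_nb {M : List (List Bool)} {B : List ℕ} {w : ℕ} :
    w ∈ nb M B ↔ w < M.length ∧ (w ∈ B ∨ ∃ u ∈ B, adjB M u w = true) := by
  simp [nb, List.mem_filter, List.any_eq_true]

private theorem cball_lt {M : List (List Bool)} {r v w : ℕ} (h : w ∈ ball M r v) :
    w < M.length := by
  cases r with
  | zero => simp [ball] at h; omega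
  | succ r => exact (cmem_nb.1 h).1

private theorem cball_self {M : List (List Bool)} {v : ℕ} (h : v < M.length) :
    v ∈ ball M 0 v := by
  simp [ball, h]

private theorem cball_zero {M : List (List Bool)} {v w : ℕ} (h : w ∈ ball M 0 v) : w = v := by
  simp [ball] at h; omega

private theorem cball_step {M : List (List Bool)} {r v u w : ℕ} (hu : u ∈ ball M r v)
    (hw : w < M.length) (h : u = w ∨ adjB M u w = true) : w ∈ ball M (r + 1) v := by
  refine cmem_nb.2 ⟨hw, ?_⟩
  rcases h with h | h
  · left; rw [← h]; exact hu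
  · right; exact ⟨u, hu, h⟩

private theorem cball_mono {M : List (List Bool)} {r s v w : ℕ} (hrs : r ≤ s)
    (h : w ∈ ball M r v) : w ∈ ball M s v := by
  induction s, hrs using Nat.le_induction with
  | base => exact h
  | succ s _ ih => exact cball_step ih (cball_lt ih) (Or.inl rfl)

private theorem cball_last {M : List (List Bool)} {r v w : ℕ} (h : w ∈ ball M (r + 1) v)
    (hw : w ≠ v) : ∃ u ∈ ball M r v, adjB M u w = true := by
  induction r with
  | zero =>
    rcases (cmem_nb.1 h).2 with h | h
    · exact absurd (cball_zero h) hw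
    · exact h
  | succ r ih =>
    rcases (cmem_nb.1 h).2 with h | h
    · obtain ⟨u, hu, ha⟩ := ih h
      exact ⟨u, cball_mono (Nat.le_succ r) hu, ha⟩
    · exact h

private theorem cball_ext_aux (n : ℕ) (p q : ℕ → Bool)
    (h : ∀ w, w ∈ (List.range n).filter p ↔ w ∈ (List.range n).filter q) :
    (List.range n).filter p = (List.range n).filter q := by
  apply List.filter_congr
  intro x hx
  have := h x
  simp only [List.mem_filter, hx, true_and] at this
  exact Bool.eq_iff_iff.2 this

private theorem cball_ext {M : List (List Bool)} {r v v' : ℕ}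
    (h : ∀ w, w ∈ ball M r v ↔ w ∈ ball M r v') : ball M r v = ball M r v' := by
  cases r with
  | zero => exact cball_ext_aux _ _ _ h
  | succ r => exact cball_ext_aux _ _ _ h

/-- twins with a common neighbour -/
private theorem ctwin_aux {M : List (List Bool)} {v v' : ℕ} (hv' : v' < M.length)
    (hN : ∀ w < M.length, adjB M v w = true → adjB M v' w = true)
    (hv : v < M.length) (hu : ∃ u < M.length, adjB M v u = true) (r w : ℕ)
    (h : w ∈ ball M (r + 2) v) : w ∈ ball M (r + 2) v' := by
  induction r generalizing w with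
  | zero =>
    obtain ⟨u, hu, ha⟩ := hu
    have h1 : ∀ z < M.length, adjB M v z = true → z ∈ ball M 1 v' := fun z hz hz' =>
      cball_step (cball_self hv') hz (Or.inr (hN z hz hz'))
    have hvm : v ∈ ball M 2 v' :=
      cball_step (h1 u hu ha) hv (Or.inr (by rw [adjB_symm]; exact ha))
    by_cases hwv : w = v
    · rw [hwv]; exact hvm
    · obtain ⟨z, hz, hzw⟩ := cball_last h hwv
      by_cases hzv : z = v
      · subst hzv
        exact cball_mono (by norm_num) (h1 w (cball_lt h) hzw)
      · obtain ⟨y, hy, hyz⟩ := cball_last (r := 0) hz hzv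
        have := cball_zero hy
        subst this
        exact cball_step (h1 z (cball_lt hz) hyz) (cball_lt h) (Or.inr hzw)
  | succ r ih =>
    rcases (cmem_nb.1 h).2 with h' | ⟨z, hz, hzw⟩
    · exact cball_mono (Nat.le_succ _) (ih w h')
    · exact cball_step (ih z hz) (cball_lt h) (Or.inr hzw)

private theorem cadj {M : List (List Bool)} {u v : ℕ} (hu : u < M.length) (hv : v < M.length) :
    (graphOf M).Adj ⟨u, hu⟩ ⟨v, hv⟩ ↔ adjB M u v = true := by
  simp [graphOf, adjB, Fin.ext_iff]

private theorem cnum (k : ℕ) : k + (2 ^ k + 2 ^ k * 2 ^ k) = F k := by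
  unfold F
  rw [two_mul, pow_add]
  ring

theorem taskCount : TaskCount := by
  classical
  rintro ⟨M, X, l⟩ r hr ⟨hnd, hlt, K, I, hKI, -, hK, hI⟩
  change (reps M r).length ≤ F X.length
  have hnd : X.Nodup := hnd
  -- outside X
  have hout : ∀ v (hv : v < M.length), v ∉ X → (⟨v, hv⟩ : Fin M.length) ∈ K ∨
      (⟨v, hv⟩ : Fin M.length) ∈ I := by
    intro v hv hvX
    have : (⟨v, hv⟩ : Fin M.length) ∈ K ∪ I := by
      rw [hKI]
      exact hvX
    exact this
  have hcl : ∀ a (ha : a < M.length) b (hb : b < M.length), (⟨a, ha⟩ : Fin M.length) ∈ K →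
      (⟨b, hb⟩ : Fin M.length) ∈ K → a = b ∨ adjB M a b = true := by
    intro a ha b hb haK hbK
    by_cases hab : a = b
    · exact Or.inl hab
    · right
      exact (cadj ha hb).1 (hK haK hbK (fun h => hab (congrArg Fin.val h)))
  have hkey : ∀ v, v < M.length → v ∉ X → (∃ w < M.length, adjB M v w = true ∧ w ∉ X) →
      ∃ v1, ∃ h1 : v1 < M.length, (⟨v1, h1⟩ : Fin M.length) ∈ K ∧ (v = v1 ∨ adjB M v v1 = true) := by
    rintro v hv hvX ⟨w, hw, hvw, hwX⟩
    rcases hout v hv hvX with hvK | hvI
    · exact ⟨v, hv, hvK, Or.inl rfl⟩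
    · rcases hout w hw hwX with hwK | hwI
      · exact ⟨w, hw, hwK, Or.inr hvw⟩
      · exfalso
        have hadj := (cadj hv hw).2 hvw
        exact hI hvI hwI hadj.ne hadj
  have hall : ∀ v, v < M.length → v ∉ X → (∃ w < M.length, adjB M v w = true ∧ w ∉ X) →
      ∀ w, w < M.length → w ∉ X → (∃ z < M.length, adjB M w z = true ∧ z ∉ X) →
      w ∈ ball M r v := by
    intro v hv hvX hvN w hw hwX hwN
    obtain ⟨v1, hv1, hv1K, hvv1⟩ := hkey v hv hvX hvN
    obtain ⟨w1, hw1, hw1K, hww1⟩ := hkey w hw hwX hwN
    have h0 := cball_self hv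
    have h1 := cball_step h0 hv1 hvv1
    have h2 := cball_step h1 hw1 (hcl v1 hv1 w1 hw1 hv1K hw1K)
    have h3 := cball_step h2 hw (hww1.imp (fun h => h.symm) (fun h => by rw [adjB_symm]; exact h))
    exact cball_mono hr h3
  -- the map
  let φ : ℕ → ℕ ⊕ (Finset ℕ ⊕ (Finset ℕ × Finset ℕ)) := fun v =>
    if v ∈ X then Sum.inl v
    else if ∀ w < M.length, adjB M v w = true → w ∈ X then
      Sum.inr (Sum.inl (X.toFinset.filter (fun w => adjB M v w = true)))
    else Sum.inr (Sum.inr (X.toFinset.filter (fun w => w ∈ ball M r v),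
      X.toFinset.filter (fun w => w ∈ ball M (r - 1) v)))
  let T : Finset (ℕ ⊕ (Finset ℕ ⊕ (Finset ℕ × Finset ℕ))) :=
    X.toFinset.disjSum (X.toFinset.powerset.disjSum (X.toFinset.powerset ×ˢ X.toFinset.powerset))
  have hT : T.card = F X.length := by
    rw [← cnum]
    simp only [T, Finset.card_disjSum, Finset.card_product, Finset.card_powerset,
      List.toFinset_card_of_nodup hnd]
  have hφT : ∀ v, φ v ∈ T := by
    intro v
    simp only [φ, T]
    split_ifs with h1 h2
    · simp [h1]
    · simp only [Finset.inr_mem_disjSum, Finset.inl_mem_disjSum, Finset.mem_powerset]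
      exact Finset.filter_subset _ _
    · simp only [Finset.inr_mem_disjSum, Finset.mem_product, Finset.mem_powerset]
      exact ⟨Finset.filter_subset _ _, Finset.filter_subset _ _⟩
  -- balls agree
  have hrepn : (reps M r).Nodup := (List.nodup_range.filter _).filter _
  have hmem : ∀ v ∈ reps M r, v < M.length ∧ (∃ u < M.length, adjB M v u = true) ∧
      ∀ v' < v, (∃ u < M.length, adjB M v' u = true) → ball M r v' ≠ ball M r v := by
    intro v hv
    simp only [reps, niso, hasN, List.mem_filter, List.mem_range, List.any_eq_true,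
      List.all_eq_true, Bool.not_eq_true', Bool.and_eq_false_iff, decide_eq_false_iff_not] at hv
    obtain ⟨⟨h1, h2⟩, h3⟩ := hv
    refine ⟨h1, h2, fun v' hv' hN => ?_⟩
    rcases h3 v' hv' with h | h
    · exfalso
      have : ((List.range M.length).any fun w => adjB M v' w) = true := by
        rw [List.any_eq_true]
        obtain ⟨u, hu, ha⟩ := hN
        exact ⟨u, List.mem_range.2 hu, ha⟩
      rw [h] at this
      exact Bool.false_ne_true this
    · exact h
  have hballinj : ∀ v ∈ reps M r, ∀ v' ∈ reps M r, ball M r v = ball M r v' → v = v' := by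
    intro v hv v' hv' h
    rcases lt_trichotomy v v' with h1 | h1 | h1
    · exact absurd h ((hmem v' hv').2.2 v h1 (hmem v hv).2.1)
    · exact h1
    · exact absurd h.symm ((hmem v hv).2.2 v' h1 (hmem v' hv').2.1)
  have htwin : ∀ v ∈ reps M r, ∀ v' ∈ reps M r,
      (∀ w < M.length, adjB M v w = true → w ∈ X) →
      X.toFinset.filter (fun w => adjB M v w = true) =
        X.toFinset.filter (fun w => adjB M v' w = true) →
      ∀ w, w ∈ ball M r v → w ∈ ball M r v' := by
    intro v hv v' hv' hX hf w hw
    obtain ⟨s, rfl⟩ : ∃ s, r = s + 2 := ⟨r - 2, by omega⟩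
    refine ctwin_aux (hmem v' hv').1 (fun z hz hz' => ?_) (hmem v hv).1 (hmem v hv).2.1 s w hw
    have : z ∈ X.toFinset.filter (fun w => adjB M v w = true) := by
      simp [hX z hz hz', hz']
    rw [hf] at this
    exact (Finset.mem_filter.1 this).2
  have hthird : ∀ v ∈ reps M r, ∀ v' ∈ reps M r, v ∉ X → v' ∉ X →
      (¬ ∀ w < M.length, adjB M v w = true → w ∈ X) →
      (¬ ∀ w < M.length, adjB M v' w = true → w ∈ X) →
      X.toFinset.filter (fun w => w ∈ ball M r v) = X.toFinset.filter (fun w => w ∈ ball M r v') →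
      X.toFinset.filter (fun w => w ∈ ball M (r - 1) v) =
        X.toFinset.filter (fun w => w ∈ ball M (r - 1) v') →
      ∀ w, w ∈ ball M r v → w ∈ ball M r v' := by
    intro v hv v' hv' hvX hv'X hvN hv'N hf1 hf2 w hw
    push Not at hvN hv'N
    by_cases hwX : w ∈ X
    · have : w ∈ X.toFinset.filter (fun w => w ∈ ball M r v) := by simp [hwX, hw]
      rw [hf1] at this
      exact (Finset.mem_filter.1 this).2
    · by_cases hwN : ∃ z < M.length, adjB M w z = true ∧ z ∉ X
      · exact hall v' (hmem v' hv').1 hv'X hv'N w (cball_lt hw) hwX hwN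
      · have hwv : w ≠ v := by
          rintro rfl
          exact hwN hvN
        obtain ⟨s, rfl⟩ : ∃ s, r = s + 1 := ⟨r - 1, by omega⟩
        obtain ⟨u, hu, huw⟩ := cball_last hw hwv
        have huX : u ∈ X := by
          by_contra huX
          exact hwN ⟨u, cball_lt hu, by rw [adjB_symm]; exact huw, huX⟩
        have : u ∈ X.toFinset.filter (fun w => w ∈ ball M (s + 1 - 1) v) := by
          simp [huX, hu]
        rw [hf2] at this
        exact cball_step (Finset.mem_filter.1 this).2 (cball_lt hw) (Or.inr huw)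
  have hinj : Set.InjOn φ ((reps M r).toFinset : Set ℕ) := by
    intro v hv v' hv' h
    have hv : v ∈ reps M r := by simpa using hv
    have hv' : v' ∈ reps M r := by simpa using hv'
    simp only [φ] at h
    split_ifs at h with h1 h2 h3 h4 h5 h6 h7 h8
    all_goals first
      | exact Sum.inl.inj h
      | (exfalso; cases h; done)
      | skip
    · have h' := Sum.inl.inj (Sum.inr.inj h)
      exact hballinj v hv v' hv' (cball_ext fun w => ⟨htwin v hv v' hv' (by assumption) h' w,
        htwin v' hv' v hv (by assumption) h'.symm w⟩)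
    · have h' := Prod.mk.inj (Sum.inr.inj (Sum.inr.inj h))
      exact hballinj v hv v' hv' (cball_ext fun w =>
        ⟨hthird v hv v' hv' (by assumption) (by assumption) (by assumption) (by assumption)
          h'.1 h'.2 w,
        hthird v' hv' v hv (by assumption) (by assumption) (by assumption) (by assumption)
          h'.1.symm h'.2.symm w⟩)
  calc (reps M r).length = (reps M r).toFinset.card := (List.toFinset_card_of_nodup hrepn).symm
    _ = ((reps M r).toFinset.image φ).card := (Finset.card_image_of_injOn hinj).symm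
    _ ≤ T.card := Finset.card_le_card (Finset.image_subset_iff.2 fun v _ => hφT v)
    _ = F X.length := hT

end Pool.Agent.Q322.RD
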