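import Pool.Agent.Q322.RD.Stmts

/-! # `TaskCube` -/

namespace Pool.Agent.Q322.RD

private theorem words_succ (cap s : ℕ) : words cap (s + 1) =
    ((words cap s).flatMap (fun l => [0 :: l, (0 + 1) :: l])).take cap := by
  unfold words
  rw [Function.iterate_succ_apply']

private theorem length_flat (E : List (List ℕ)) :
    (E.flatMap (fun l => [0 :: l, (0 + 1) :: l])).length = 2 * E.length := by
  induction E with
  | nil => rfl
  | cons a E ih =>
    rw [List.flatMap_cons, List.length_append, ih]
    simp only [List.length_cons, List.length_nil]
    omega

private theorem length_words (cap s : ℕ) : (words cap s).length ≤ 2 ^ s := by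
  induction s with
  | zero => simp [words]
  | succ s ih =>
    rw [words_succ, List.length_take, length_flat, pow_succ]
    have := Nat.min_le_right cap (2 * (words cap s).length)
    omega

theorem TaskCube_proof : TaskCube := by
  intro cap s
  induction s with
  | zero =>
    intro _ f
    refine ⟨[], by simp [words], fun i hi => absurd hi (Nat.not_lt_zero i)⟩
  | succ s ih =>
    intro hcap f
    have hle : 2 ^ s ≤ cap := by
      rw [pow_succ] at hcap
      omega
    obtain ⟨w, hw, hwf⟩ := ih hle (fun i => f (i + 1))
    have htake : words cap (s + 1) = (words cap s).flatMap (fun l => [0 :: l, (0 + 1) :: l]) := by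
      rw [words_succ]
      apply List.take_of_length_le
      rw [length_flat]
      have := length_words cap s
      rw [pow_succ] at hcap
      omega
    refine ⟨(if f 0 = true then 0 + 1 else 0) :: w, ?_, ?_⟩
    · rw [htake, List.mem_flatMap]
      refine ⟨w, hw, ?_⟩
      by_cases h : f 0 = true
      · rw [if_pos h]
        exact List.mem_cons_of_mem _ (List.mem_cons_self)
      · rw [if_neg h]
        exact List.mem_cons_self
    · intro i hi
      cases i with
      | zero =>
        by_cases h : f 0 = true
        · simp [h]
        · simp [h]
      | succ i =>
        rw [List.getD_cons_succ]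
        exact hwf i (by omega)

end Pool.Agent.Q322.RD
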