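import Pool.Agent.Q322.RD.Stmts

/-!
# Task Fwd: from dominating sets to 2-dominating sets
-/

set_option autoImplicit false

namespace Pool.Agent.Q322.RD

open Pool.Agent.NPC Pool.Agent.H633R2 Pool.Agent.Q322

theorem mem_vsl {n q : ℕ} {a : Lb} : a ∈ vsl n q ↔
    (∃ i < q, a = (0, i, 0)) ∨ (∃ i < q, a = (1, i, 0)) ∨
    (∃ i < q, ∃ v < n, a = (2, i, v)) ∨ (∃ u < n, a = (3, 0, u)) ∨ (∃ u < n, a = (4, 0, u)) := by
  unfold vsl
  simp only [List.mem_append, List.mem_map, List.mem_range, List.mem_flatMap, @eq_comm _ a]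

theorem adj_of {n q : ℕ} {M : List (List Bool)} {i j : Fin (mat (vsl n q) (ad M)).length}
    {a b : Lb} (hi : lab (vsl n q) (ad M) i = a) (hj : lab (vsl n q) (ad M) j = b)
    (hne : a.1 ≠ b.1) (h : ad M a b = true ∨ ad M b a = true) :
    (graphOf (mat (vsl n q) (ad M))).Adj i j := by
  rw [adj_mat, hi, hj]
  refine ⟨fun h' => hne ?_, h⟩
  rw [← hi, ← hj, h']

theorem taskFwd : TaskFwd := by
  classical
  rintro ⟨M, k⟩ ⟨D, hD, hdom⟩
  simp only at hD hdom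
  obtain ⟨n, hn⟩ : ∃ n, n = M.length := ⟨_, rfl⟩
  obtain ⟨q, hq⟩ : ∃ q, q = min k M.length := ⟨_, rfl⟩
  suffices h : ∃ S : Finset (Fin (mat (vsl n q) (ad M)).length), S.card ≤ q ∧
      RDom (graphOf (mat (vsl n q) (ad M))) 2 S by
    subst hn hq
    exact h
  rcases Nat.eq_zero_or_pos n with h0 | hpos
  · -- no vertices
    refine ⟨∅, by simp, fun v => ?_⟩
    exfalso
    have h1 := lab_mem (vsl n q) (ad M) v
    rw [mem_vsl] at h1
    have hq0 : q = 0 := by rw [hq, ← hn, h0]; simp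
    rcases h1 with ⟨i, hi, -⟩ | ⟨i, hi, -⟩ | ⟨i, hi, -⟩ | ⟨i, hi, -⟩ | ⟨i, hi, -⟩ <;> omega
  -- the vertices of the dominating set
  have hDne : D.Nonempty := by
    obtain ⟨v, hv, -⟩ := hdom ⟨0, by omega⟩
    exact ⟨v, hv⟩
  obtain ⟨d0, hd0⟩ := hDne
  have hcard : D.card ≤ q := by
    rw [hq]
    refine le_min hD ?_
    have := D.card_le_univ
    rwa [Fintype.card_fin] at this
  obtain ⟨f, hf⟩ : ∃ f : ℕ → Fin M.length, ∀ v ∈ D, ∃ i < q, f i = v := by
    refine ⟨fun i => D.toList.getD i d0, fun v hv => ?_⟩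
    obtain ⟨i, hi, h⟩ := List.getElem_of_mem (Finset.mem_toList.2 hv)
    refine ⟨i, ?_, ?_⟩
    · rw [Finset.length_toList] at hi
      omega
    · show D.toList.getD i d0 = v
      rw [List.getD_eq_getElem _ _ hi]
      exact h
  have hfn : ∀ i, (f i).1 < n := fun i => by rw [hn]; exact (f i).2
  have hx : ∀ i : Fin q, ∃ j, lab (vsl n q) (ad M) j = (2, i.1, (f i.1).1) := fun i =>
    exists_lab (ad M) (mem_vsl.2 (Or.inr (Or.inr (Or.inl ⟨i.1, i.2, (f i.1).1, hfn _, rfl⟩))))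
  choose g hg using hx
  have h0 : ∀ i < q, ∃ j, lab (vsl n q) (ad M) j = (0, i, 0) := fun i hi =>
    exists_lab (ad M) (mem_vsl.2 (Or.inl ⟨i, hi, rfl⟩))
  have h3 : ∀ u < n, ∃ j, lab (vsl n q) (ad M) j = (3, 0, u) := fun u hu =>
    exists_lab (ad M) (mem_vsl.2 (Or.inr (Or.inr (Or.inr (Or.inl ⟨u, hu, rfl⟩)))))
  -- the modulator vertices and the clique vertices are adjacent to the set
  have key0 : ∀ (i : ℕ) (hi : i < q) (j : Fin (mat (vsl n q) (ad M)).length),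
      lab (vsl n q) (ad M) j = (0, i, 0) →
      (graphOf (mat (vsl n q) (ad M))).Adj j (g ⟨i, hi⟩) := fun i hi j hj =>
    adj_of hj (hg ⟨i, hi⟩) (by simp) (Or.inl (by simp [ad]))
  have key3 : ∀ (u : ℕ) (_ : u < n), ∃ (i : ℕ) (hi : i < q),
      ∀ j : Fin (mat (vsl n q) (ad M)).length, lab (vsl n q) (ad M) j = (3, 0, u) →
      (graphOf (mat (vsl n q) (ad M))).Adj j (g ⟨i, hi⟩) := by
    intro u hu
    obtain ⟨v, hv, hvu⟩ := hdom ⟨u, by omega⟩
    obtain ⟨i, hi, hfi⟩ := hf v hv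
    refine ⟨i, hi, fun j hj => adj_of hj (hg ⟨i, hi⟩) (by simp) (Or.inr ?_)⟩
    have hdm : dmB M (f i).1 u = true := by
      rw [hfi]
      rcases hvu with h | h
      · simp [dmB, h]
      · have h4 : entry M v.1 u = true ∨ entry M u v.1 = true := h.2
        unfold dmB
        rcases h4 with h4 | h4 <;> simp [h4]
    simp [ad, hdm]
  refine ⟨Finset.univ.image g, ?_, fun v => ?_⟩
  · refine Finset.card_image_le.trans ?_
    simp
  · have hmem : ∀ i, g i ∈ Finset.univ.image g := fun i =>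
      Finset.mem_image_of_mem g (Finset.mem_univ i)
    have h1 := lab_mem (vsl n q) (ad M) v
    rw [mem_vsl] at h1
    rcases h1 with ⟨i, hi, h⟩ | ⟨i, hi, h⟩ | ⟨i, hi, w, -, h⟩ | ⟨u, hu, h⟩ | ⟨u, hu, h⟩
    · exact ⟨_, hmem ⟨i, hi⟩, (key0 i hi v h).toWalk, by simp⟩
    · obtain ⟨j, hj⟩ := h0 i hi
      have h2 : (graphOf (mat (vsl n q) (ad M))).Adj v j :=
        adj_of h hj (by simp) (Or.inr (by simp [ad]))
      exact ⟨_, hmem ⟨i, hi⟩, SimpleGraph.Walk.cons h2 (key0 i hi j hj).toWalk, by simp⟩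
    · obtain ⟨j, hj⟩ := h0 i hi
      have h2 : (graphOf (mat (vsl n q) (ad M))).Adj v j :=
        adj_of h hj (by simp) (Or.inr (by simp [ad]))
      exact ⟨_, hmem ⟨i, hi⟩, SimpleGraph.Walk.cons h2 (key0 i hi j hj).toWalk, by simp⟩
    · obtain ⟨i, hi, h2⟩ := key3 u hu
      exact ⟨_, hmem ⟨i, hi⟩, (h2 v h).toWalk, by simp⟩
    · obtain ⟨i, hi, h2⟩ := key3 u hu
      obtain ⟨j, hj⟩ := h3 u hu
      have h4 : (graphOf (mat (vsl n q) (ad M))).Adj v j :=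
        adj_of h hj (by simp) (Or.inr (by simp [ad]))
      exact ⟨_, hmem ⟨i, hi⟩, SimpleGraph.Walk.cons h4 (h2 j hj).toWalk, by simp⟩

end Pool.Agent.Q322.RD
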