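import Pool.Agent.Q322.RD.Stmts

/-!
# The reduction for `r = 2` is computed in polynomial time
-/

namespace Pool.Agent.Q322.RD

open Pool.Agent.NPC Pool.Agent.H633R2 Pool.Agent.Q322

theorem q_u : UPoly (fun x : List (List Bool) × ℕ => min x.2 x.1.length) := by
  refine UPoly.of_le (n := fun x : List (List Bool) × ℕ => x.1.length) (by fun_prop)
    (UPoly.length (by fun_prop)) (fun x => min_le_right _ _)

theorem vsl_poly {α : Type} [TEnc α] {n q : α → ℕ} (hn : UPoly n) (hq : UPoly q) :
    Poly (fun a => vsl (n a) (q a)) := by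
  unfold vsl
  have h1 := hn.range
  have h2 := hq.range
  refine NPC.Poly.append (by fun_prop) (NPC.Poly.append (by fun_prop) (NPC.Poly.append ?_
    (NPC.Poly.append (by fun_prop) (by fun_prop))))
  refine NPC.Poly.flatMap h2 ?_
  refine NPC.Poly.map (h1.comp (NPC.Poly.fst NPC.Poly.id)) ?_
  fun_prop

theorem ad_poly {α : Type} [TEnc α] {M : α → List (List Bool)} {x y : α → Lb} (hM : Poly M)
    (hx : Poly x) (hy : Poly y) : Poly (fun a => ad (M a) (x a) (y a)) := by
  unfold ad dmB
  fun_prop

theorem taskInstPoly : TaskInstPoly := by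
  unfold TaskInstPoly
  have hq := q_u
  have hM : Poly (fun x : List (List Bool) × ℕ => x.1) := by fun_prop
  have hl : UPoly (fun x : List (List Bool) × ℕ => x.1.length) := UPoly.length hM
  have h1 : Poly (fun x : List (List Bool) × ℕ =>
      mat (vsl x.1.length (min x.2 x.1.length)) (ad x.1)) := by
    refine mat_poly (vsl_poly hl hq) ?_
    exact ad_poly (α := ((List (List Bool) × ℕ) × Lb) × Lb) (M := fun x => x.1.1.1)
      (by fun_prop) (by fun_prop) (by fun_prop)
  have h2 : Poly (fun x : List (List Bool) × ℕ => min x.2 x.1.length) := by fun_prop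
  exact NPC.Poly.pair h1 (NPC.Poly.pair hq.range h2)

end Pool.Agent.Q322.RD
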