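import Pool.Agent.Q322.RD.Stmts

namespace Pool.Agent.Q322.RD

open Pool.Agent.NPC Pool.Agent.H633R2 Pool.Agent.Q322

private theorem kind_iff (n q i : ℕ) (hi : i < (vsl n q).length) :
    ((vsl n q)[i]).1 = 0 ↔ i < q := by
  have hA : ((List.range q).map (fun i => ((0, i, 0) : Lb))).length = q := by simp
  constructor
  · intro h
    by_contra hc
    unfold vsl at h
    rw [List.getElem_append_right (by rw [hA]; omega)] at h
    have hm := List.getElem_mem (l := ((List.range q).map (fun i => ((1, i, 0) : Lb)) ++
      ((List.range q).flatMap (fun i => (List.range n).map (fun v => ((2, i, v) : Lb))) ++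
      ((List.range n).map (fun u => ((3, 0, u) : Lb)) ++
        (List.range n).map (fun u => ((4, 0, u) : Lb)))))) (n := i - q) (by
          unfold vsl at hi
          rw [List.length_append, hA] at hi
          omega)
    have h2 : ∀ y ∈ ((List.range q).map (fun i => ((1, i, 0) : Lb)) ++
      ((List.range q).flatMap (fun i => (List.range n).map (fun v => ((2, i, v) : Lb))) ++
      ((List.range n).map (fun u => ((3, 0, u) : Lb)) ++
        (List.range n).map (fun u => ((4, 0, u) : Lb))))), y.1 ≠ 0 := by
      intro y hy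
      simp only [List.mem_append, List.mem_map, List.mem_flatMap] at hy
      rcases hy with ⟨_, _, rfl⟩ | ⟨_, _, _, _, rfl⟩ | ⟨_, _, rfl⟩ | ⟨_, _, rfl⟩ <;> simp
    refine h2 _ hm ?_
    convert h using 3
    rw [hA]
  · intro h
    unfold vsl
    rw [List.getElem_append_left (by rw [hA]; exact h)]
    simp

private theorem len_ge (n q : ℕ) : q ≤ (vsl n q).length := by
  unfold vsl
  rw [List.length_append, List.length_map, List.length_range]
  omega

private theorem ad_three (M : List (List Bool)) {a b : Lb} (ha : a.1 = 3) (hb : b.1 = 3) :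
    ad M a b = true := by
  simp [ad, ha, hb]

private theorem ad_indep (M : List (List Bool)) {a b : Lb} (ha : a.1 ≠ 0) (ha' : a.1 ≠ 3)
    (hb' : b.1 ≠ 3) : ad M a b = false := by
  simp [ad, ha, ha', hb']

theorem taskValid : TaskValid := by
  rintro ⟨M, k⟩
  set n := M.length with hn
  set q := min k n with hq
  have hinst : inst (M, k) = (mat (vsl n q) (ad M), List.range q, q) := rfl
  rw [hinst]
  refine ⟨List.nodup_range, ?_, ?_⟩
  · intro v hv
    have := List.mem_range.1 hv
    have h2 := len_ge n q
    change v < (mat (vsl n q) (ad M)).length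
    rw [length_mat]
    omega
  · change SplitMod (graphOf (mat (vsl n q) (ad M)))
      {v : Fin (mat (vsl n q) (ad M)).length | v.1 ∈ List.range q}
    have hk : ∀ v : Fin (mat (vsl n q) (ad M)).length,
        (lab (vsl n q) (ad M) v).1 = 0 ↔ v.1 < q := fun v => kind_iff n q v.1 _
    refine ⟨{v | (lab (vsl n q) (ad M) v).1 = 3},
      {v | (lab (vsl n q) (ad M) v).1 ≠ 0 ∧ (lab (vsl n q) (ad M) v).1 ≠ 3}, ?_, ?_, ?_, ?_⟩
    · ext v
      simp only [Set.mem_union, Set.mem_ofPred_eq, Set.mem_compl_iff, List.mem_range]
      rw [← hk v]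
      omega
    · apply Set.eq_empty_of_forall_notMem
      rintro v ⟨h1, h2⟩
      exact h2.2 h1
    · intro a ha b hb hab
      rw [adj_mat]
      exact ⟨hab, Or.inl (ad_three M ha hb)⟩
    · intro a ha b hb hab
      rw [adj_mat]
      rintro ⟨_, h | h⟩
      · rw [ad_indep M ha.1 ha.2 hb.2] at h
        exact absurd h (by simp)
      · rw [ad_indep M hb.1 hb.2 ha.2] at h
        exact absurd h (by simp)

end Pool.Agent.Q322.RD
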